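import Pool.Agent.W488.IW.Stm
import Pool.Agent.W779.Morrey.C1case

set_option autoImplicit false

namespace Pool.Agent.W74.IW.Plane

open MeasureTheory Set Filter Topology
open Pool.Agent.W488.IW
open Pool.Agent.W779.Morrey (cc CosSum cosSum_cc continuous_cc cc_nonneg cc_zero cc_lt Zn Zn_eq
  Zn_pos ae_interior ph)

/-! ### exponentials -/

theorem ek_neg_mul (k : Idx) (x y : V) : ek k (x - y) = ek k x * ek (-k) y := by
  unfold ek
  rw [← Complex.exp_add]
  congr 1
  simp
  ring

theorem continuous_ek (k : Idx) : Continuous (ek k) := by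
  unfold ek
  fun_prop

theorem norm_ek (k : Idx) (x : V) : ‖ek k x‖ = 1 := by
  unfold ek
  have : (2 * Real.pi * (k.1 * x 0 + k.2 * x 1) * Complex.I : ℂ)
      = ((2 * Real.pi * (k.1 * x 0 + k.2 * x 1) : ℝ) : ℂ) * Complex.I := by
    push_cast; ring
  rw [this, Complex.norm_exp_ofReal_mul_I]

theorem cos_ph (k : Fin 2 → ℤ) (x : V) :
    ((Real.cos (ph k x) : ℝ) : ℂ) = 1 / 2 * ek (k 0, k 1) x + 1 / 2 * ek (-k 0, -k 1) x := by
  rw [Complex.ofReal_cos, Complex.cos]
  unfold ek ph
  push_cast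
  rw [show (2 * (Real.pi : ℂ) * (-(k 0 : ℂ) * (x 0 : ℂ) + -(k 1 : ℂ) * (x 1 : ℂ)) * Complex.I)
    = -(2 * (Real.pi : ℂ) * ((k 0 : ℂ) * (x 0 : ℂ) + (k 1 : ℂ) * (x 1 : ℂ))) * Complex.I by ring]
  ring

/-- exponential sums -/
theorem expSum {f : V → ℝ} (hf : CosSum f) :
    ∃ (ι : Type) (_ : Fintype ι) (κ : ι → Idx) (a : ι → ℂ), ∀ x : V,
      ((f x : ℝ) : ℂ) = ∑ i, a i * ek (κ i) x := by
  obtain ⟨ι, inst, k, γ, h⟩ := hf
  refine ⟨ι ⊕ ι, inferInstance, Sum.elim (fun i => (k i 0, k i 1)) (fun i => (-k i 0, -k i 1)),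
    Sum.elim (fun i => (γ i : ℂ) / 2) (fun i => (γ i : ℂ) / 2), fun x => ?_⟩
  rw [Fintype.sum_sum_type, h, ← Finset.sum_add_distrib]
  push_cast
  refine Finset.sum_congr rfl fun i _ => ?_
  simp only [Sum.elim_inl, Sum.elim_inr]
  rw [← Complex.ofReal_cos, cos_ph]
  ring

theorem hasFDerivAt_ek (k : Idx) (x : V) :
    HasFDerivAt (ek k) ((2 * Real.pi * Complex.I * ek k x) •
      (((k.1 : ℂ) • Complex.ofRealCLM.comp (ContinuousLinearMap.proj (R := ℝ) (φ := fun _ : Fin 2 => ℝ) 0)
        + (k.2 : ℂ) • Complex.ofRealCLM.comp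
          (ContinuousLinearMap.proj (R := ℝ) (φ := fun _ : Fin 2 => ℝ) 1)) : V →L[ℝ] ℂ)) x := by
  have h0 : HasFDerivAt (fun x : V => ((x 0 : ℝ) : ℂ))
      (Complex.ofRealCLM.comp (ContinuousLinearMap.proj (R := ℝ) (φ := fun _ : Fin 2 => ℝ) 0)) x :=
    (Complex.ofRealCLM.comp
      (ContinuousLinearMap.proj (R := ℝ) (φ := fun _ : Fin 2 => ℝ) 0)).hasFDerivAt
  have h1 : HasFDerivAt (fun x : V => ((x 1 : ℝ) : ℂ))
      (Complex.ofRealCLM.comp (ContinuousLinearMap.proj (R := ℝ) (φ := fun _ : Fin 2 => ℝ) 1)) x :=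
    (Complex.ofRealCLM.comp
      (ContinuousLinearMap.proj (R := ℝ) (φ := fun _ : Fin 2 => ℝ) 1)).hasFDerivAt
  have h2 : HasFDerivAt (fun x : V => (2 * Real.pi * (k.1 * x 0 + k.2 * x 1) * Complex.I : ℂ))
      ((2 * Real.pi * Complex.I : ℂ) • (((k.1 : ℂ) • Complex.ofRealCLM.comp
        (ContinuousLinearMap.proj (R := ℝ) (φ := fun _ : Fin 2 => ℝ) 0)
        + (k.2 : ℂ) • Complex.ofRealCLM.comp
          (ContinuousLinearMap.proj (R := ℝ) (φ := fun _ : Fin 2 => ℝ) 1)) : V →L[ℝ] ℂ)) x := by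
    have h3 := ((h0.const_mul (k.1 : ℂ)).add (h1.const_mul (k.2 : ℂ))).const_mul
      (2 * Real.pi * Complex.I : ℂ)
    refine h3.congr_of_eventuallyEq (Eventually.of_forall fun y => ?_)
    simp only [Pi.add_apply]
    ring
  refine h2.cexp.congr_fderiv ?_
  unfold ek
  rw [smul_smul]
  congr 1
  ring

theorem fderiv_ek_zero (k : Idx) (x : V) :
    fderiv ℝ (ek k) x (Pi.single 0 1) = 2 * Real.pi * Complex.I * k.1 * ek k x := by
  rw [(hasFDerivAt_ek k x).fderiv]
  simp
  ring

theorem fderiv_ek_one (k : Idx) (x : V) :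
    fderiv ℝ (ek k) x (Pi.single 1 1) = 2 * Real.pi * Complex.I * k.2 * ek k x := by
  rw [(hasFDerivAt_ek k x).fderiv]
  simp
  ring

/-! ### Fourier coefficients of compactly supported maps -/

/-- Fourier coefficient -/
noncomputable def fc (g : V → ℂ) (k : Idx) : ℂ := ∫ y, ek (-k) y * g y

noncomputable def uz (u : V → ℂ) (y : V) : ℂ :=
  1 / 2 * (fderiv ℝ u y (Pi.single 0 1) - Complex.I * fderiv ℝ u y (Pi.single 1 1))
noncomputable def uzb (u : V → ℂ) (y : V) : ℂ :=
  1 / 2 * (fderiv ℝ u y (Pi.single 0 1) + Complex.I * fderiv ℝ u y (Pi.single 1 1))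

section

variable {u : V → ℂ} (hu : ContDiff ℝ 1 u) (hc : HasCompactSupport u)

include hu in
theorem cont_fd (v : V) : Continuous (fun y => fderiv ℝ u y v) :=
  (hu.continuous_fderiv (by norm_num)).clm_apply continuous_const

include hc in
theorem supp_fd (v : V) : HasCompactSupport (fun y => fderiv ℝ u y v) := hc.fderiv_apply ℝ v

include hu hc in
theorem int_fd (v : V) (k : Idx) : Integrable (fun y => ek k y * fderiv ℝ u y v) :=
  ((continuous_ek k).mul (cont_fd hu v)).integrable_of_hasCompactSupport (supp_fd hc v).mul_left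

include hu hc in
theorem fc_fd_zero (k : Idx) :
    ∫ y, ek (-k) y * fderiv ℝ u y (Pi.single 0 1) = 2 * Real.pi * Complex.I * k.1 * fc u k := by
  have h := integral_mul_fderiv_eq_neg_fderiv_mul_of_integrable (μ := (volume : Measure V))
    (f := ek (-k)) (g := u) (v := Pi.single 0 1) ?_ (int_fd hu hc _ _) ?_
    (fun x _ => (hasFDerivAt_ek _ x).differentiableAt)
    (fun x _ => hu.differentiable (by norm_num) x)
  · rw [h]
    simp only [fderiv_ek_zero]
    unfold fc
    rw [← integral_neg, ← integral_const_mul]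
    refine integral_congr_ae (Eventually.of_forall fun y => ?_)
    simp
    ring
  · simp only [fderiv_ek_zero]
    refine Continuous.integrable_of_hasCompactSupport ?_ hc.mul_left
    exact (continuous_const.mul (continuous_ek _)).mul hu.continuous
  · exact ((continuous_ek _).mul hu.continuous).integrable_of_hasCompactSupport hc.mul_left

include hu hc in
theorem fc_fd_one (k : Idx) :
    ∫ y, ek (-k) y * fderiv ℝ u y (Pi.single 1 1) = 2 * Real.pi * Complex.I * k.2 * fc u k := by
  have h := integral_mul_fderiv_eq_neg_fderiv_mul_of_integrable (μ := (volume : Measure V))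
    (f := ek (-k)) (g := u) (v := Pi.single 1 1) ?_ (int_fd hu hc _ _) ?_
    (fun x _ => (hasFDerivAt_ek _ x).differentiableAt)
    (fun x _ => hu.differentiable (by norm_num) x)
  · rw [h]
    simp only [fderiv_ek_one]
    unfold fc
    rw [← integral_neg, ← integral_const_mul]
    refine integral_congr_ae (Eventually.of_forall fun y => ?_)
    simp
    ring
  · simp only [fderiv_ek_one]
    refine Continuous.integrable_of_hasCompactSupport ?_ hc.mul_left
    exact (continuous_const.mul (continuous_ek _)).mul hu.continuous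
  · exact ((continuous_ek _).mul hu.continuous).integrable_of_hasCompactSupport hc.mul_left

include hu hc in
theorem fc_uz (k : Idx) : fc (uz u) k = ka k * fc u k := by
  have e : fc (uz u) k = 1 / 2 * ((∫ y, ek (-k) y * fderiv ℝ u y (Pi.single 0 1))
      - Complex.I * ∫ y, ek (-k) y * fderiv ℝ u y (Pi.single 1 1)) := by
    rw [← integral_const_mul, ← integral_sub (int_fd hu hc _ _)
      ((int_fd hu hc _ _).const_mul _), ← integral_const_mul]
    unfold fc uz
    refine integral_congr_ae (Eventually.of_forall fun y => ?_)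
    simp only
    ring
  rw [e, fc_fd_zero hu hc, fc_fd_one hu hc]
  unfold ka
  ring

include hu hc in
theorem fc_uzb (k : Idx) : fc (uzb u) k = kb k * fc u k := by
  have e : fc (uzb u) k = 1 / 2 * ((∫ y, ek (-k) y * fderiv ℝ u y (Pi.single 0 1))
      + Complex.I * ∫ y, ek (-k) y * fderiv ℝ u y (Pi.single 1 1)) := by
    rw [← integral_const_mul, ← integral_add (int_fd hu hc _ _)
      ((int_fd hu hc _ _).const_mul _), ← integral_const_mul]
    unfold fc uzb
    refine integral_congr_ae (Eventually.of_forall fun y => ?_)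
    simp only
    ring
  rw [e, fc_fd_zero hu hc, fc_fd_one hu hc]
  unfold kb
  ring

include hu in
theorem cont_uz : Continuous (uz u) := by
  unfold uz
  exact continuous_const.mul ((cont_fd hu _).sub (continuous_const.mul (cont_fd hu _)))

include hu in
theorem cont_uzb : Continuous (uzb u) := by
  unfold uzb
  exact continuous_const.mul ((cont_fd hu _).add (continuous_const.mul (cont_fd hu _)))

end

/-! ### convolution with the kernel -/

noncomputable def T (n : ℕ) (g : V → ℂ) (x : V) : ℂ :=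
  (Zn n)⁻¹ • ∫ y in Icc (0 : V) 1, cc (x - y) ^ n • g y

theorem T_repr (n : ℕ) {ι : Type} [Fintype ι] {κ : ι → Idx} {a : ι → ℂ}
    (hk : ∀ x : V, ((cc x ^ n : ℝ) : ℂ) = ∑ i, a i * ek (κ i) x) {g : V → ℂ} (hg : Continuous g)
    (h0 : ∀ x, x ∉ Icc (0 : V) 1 → g x = 0) (x : V) :
    T n g x = ∑ i, ((Zn n : ℝ) : ℂ)⁻¹ * a i * fc g (κ i) * ek (κ i) x := by
  unfold T
  have e1 : ∫ y in Icc (0 : V) 1, cc (x - y) ^ n • g y
      = ∑ i, a i * ek (κ i) x * fc g (κ i) := by
    have e2 : ∀ i, fc g (κ i) = ∫ y in Icc (0 : V) 1, ek (-κ i) y * g y := by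
      intro i
      unfold fc
      rw [setIntegral_eq_integral_of_forall_compl_eq_zero]
      intro y hy
      rw [h0 y hy, mul_zero]
    simp only [e2, ← integral_const_mul]
    rw [← integral_finsetSum]
    · refine integral_congr_ae (Eventually.of_forall fun y => ?_)
      simp only
      rw [Complex.real_smul, hk, Finset.sum_mul]
      refine Finset.sum_congr rfl fun i _ => ?_
      rw [ek_neg_mul]
      ring
    · intro i _
      exact (continuous_const.mul ((continuous_ek _).mul hg)).integrableOn_Icc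
  rw [e1, Complex.real_smul, Finset.mul_sum]
  refine Finset.sum_congr rfl fun i _ => ?_
  push_cast
  ring

theorem mem_box_iff (N : ℕ) (k : Idx) : k ∈ box N ↔ |k.1| ≤ N ∧ |k.2| ≤ N := by
  unfold box
  rw [Finset.mem_product, Finset.mem_Icc, Finset.mem_Icc, abs_le, abs_le]

theorem exists_box {ι : Type} [Fintype ι] (κ : ι → Idx) : ∃ N : ℕ, ∀ i, κ i ∈ box N := by
  refine ⟨∑ i, ((κ i).1.natAbs + (κ i).2.natAbs), fun i => ?_⟩
  have h : (κ i).1.natAbs + (κ i).2.natAbs ≤ ∑ i, ((κ i).1.natAbs + (κ i).2.natAbs) :=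
    Finset.single_le_sum (f := fun i => (κ i).1.natAbs + (κ i).2.natAbs)
      (fun _ _ => Nat.zero_le _) (Finset.mem_univ i)
  rw [mem_box_iff, Int.abs_eq_natAbs, Int.abs_eq_natAbs]
  constructor <;> omega

theorem T_gd (n : ℕ) {u : V → ℂ} (hu : ContDiff ℝ 1 u) (hc : HasCompactSupport u)
    (h1 : ∀ x, x ∉ Icc (0 : V) 1 → uz u x = 0) (h2 : ∀ x, x ∉ Icc (0 : V) 1 → uzb u x = 0) :
    ∃ (N : ℕ) (c : Idx → ℂ), ∀ x, (T n (uz u) x, T n (uzb u) x) = gd (box N) c x := by
  obtain ⟨ι, inst, κ, a, hk⟩ := expSum (cosSum_cc.pow n)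
  obtain ⟨N, hN⟩ := exists_box κ
  classical
  refine ⟨N, fun k => ∑ i ∈ Finset.univ.filter (fun i => κ i = k),
    ((Zn n : ℝ) : ℂ)⁻¹ * a i * fc u (κ i), fun x => ?_⟩
  unfold gd tp
  rw [T_repr n hk (cont_uz hu) h1, T_repr n hk (cont_uzb hu) h2]
  refine Prod.ext ?_ ?_
  · simp only
    rw [← Finset.sum_fiberwise_of_maps_to (s := Finset.univ) (t := box N) (g := κ)
      (fun i _ => hN i)]
    refine Finset.sum_congr rfl fun k _ => ?_
    rw [Finset.mul_sum, Finset.sum_mul]
    refine Finset.sum_congr rfl fun i hi => ?_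
    rw [(Finset.mem_filter.1 hi).2, fc_uz hu hc]
    ring
  · simp only
    rw [← Finset.sum_fiberwise_of_maps_to (s := Finset.univ) (t := box N) (g := κ)
      (fun i _ => hN i)]
    refine Finset.sum_congr rfl fun k _ => ?_
    rw [Finset.mul_sum, Finset.sum_mul]
    refine Finset.sum_congr rfl fun i hi => ?_
    rw [(Finset.mem_filter.1 hi).2, fc_uzb hu hc]
    ring

theorem T_tendsto {g : V → ℂ} (hg : Continuous g) {x : V} (hx : ∀ i, 0 < x i ∧ x i < 1) :
    Tendsto (fun n => T n g x) atTop (𝓝 (g x)) := by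
  have hin : x ∈ interior (Icc (0 : V) 1) := by
    rw [mem_interior]
    refine ⟨Set.pi univ (fun _ => Ioo (0:ℝ) 1), fun y hy => ?_, isOpen_set_pi finite_univ
      (fun _ _ => isOpen_Ioo), fun i _ => hx i⟩
    exact ⟨fun i => (hy i (mem_univ i)).1.le, fun i => (hy i (mem_univ i)).2.le⟩
  have h := tendsto_setIntegral_pow_smul_of_unique_maximum_of_isCompact_of_continuousOn
    (μ := (volume : Measure V)) (s := Icc (0 : V) 1) (x₀ := x) (c := fun y => cc (x - y))
    (g := g) isCompact_Icc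
    (continuous_cc.comp (continuous_const.sub continuous_id)).continuousOn
    (fun y hy hyx => by
      simp only [sub_self, cc_zero]
      refine cc_lt (sub_ne_zero.2 (Ne.symm hyx)) fun j => ?_
      have h1 := hx j
      have h2 := hy.1 j
      have h3 := hy.2 j
      simp only [Pi.zero_apply, Pi.one_apply] at h2 h3
      rw [Pi.sub_apply, abs_lt]
      constructor <;> linarith [h1.1, h1.2])
    (fun y _ => cc_nonneg _) (by simp [cc_zero]) (subset_closure hin) hg.continuousOn
  simp only [Zn_eq] at h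
  exact h

theorem T_bound (n : ℕ) {g : V → ℂ} (hg : Continuous g) {M : ℝ}
    (hM : ∀ y, ‖g y‖ ≤ M) (x : V) : ‖T n g x‖ ≤ M := by
  have hz := Zn_pos n
  have hc : Continuous (fun y : V => cc (x - y) ^ n) :=
    (continuous_cc.comp (continuous_const.sub continuous_id)).pow n
  have h1 : ‖∫ y in Icc (0 : V) 1, cc (x - y) ^ n • g y‖ ≤ Zn n * M := by
    refine (norm_integral_le_integral_norm _).trans ?_
    rw [← Zn_eq n x, ← integral_mul_const]
    refine integral_mono ?_ ?_ fun y => ?_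
    · exact (hc.smul hg).norm.integrableOn_Icc
    · exact (hc.mul continuous_const).integrableOn_Icc
    · simp only [norm_smul, norm_pow, Real.norm_eq_abs]
      rw [abs_of_nonneg (cc_nonneg _)]
      exact mul_le_mul_of_nonneg_left (hM y) (pow_nonneg (cc_nonneg _) _)
  unfold T
  rw [norm_smul, norm_inv, Real.norm_eq_abs, abs_of_pos hz]
  calc (Zn n)⁻¹ * ‖∫ y in Icc (0 : V) 1, cc (x - y) ^ n • g y‖
      ≤ (Zn n)⁻¹ * (Zn n * M) := mul_le_mul_of_nonneg_left h1 (inv_pos.2 hz).le
    _ = M := by field_simp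

theorem continuous_gd (Λ : Finset Idx) (c : Idx → ℂ) : Continuous (gd Λ c) := by
  unfold gd tp
  refine Continuous.prodMk ?_ ?_
  · exact continuous_finsetSum _ fun k _ => continuous_const.mul (continuous_ek k)
  · exact continuous_finsetSum _ fun k _ => continuous_const.mul (continuous_ek k)

/-- the inequality on the cube -/
theorem cube {w : ℂ × ℂ → ℝ} (hw : Continuous w) (hq : QC0 w) {u : V → ℂ} (hu : ContDiff ℝ 1 u)
    (hc : HasCompactSupport u)
    (h1 : ∀ x, x ∉ Icc (0 : V) 1 → uz u x = 0) (h2 : ∀ x, x ∉ Icc (0 : V) 1 → uzb u x = 0) :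
    0 ≤ ∫ x in Icc (0 : V) 1, w (uz u x, uzb u x) := by
  -- bounds
  have hb : ∃ M : ℝ, (∀ y, ‖uz u y‖ ≤ M) ∧ (∀ y, ‖uzb u y‖ ≤ M) := by
    obtain ⟨M1, hM1⟩ := (isCompact_Icc (a := (0 : V)) (b := 1)).exists_bound_of_continuousOn
      (cont_uz hu).continuousOn
    obtain ⟨M2, hM2⟩ := (isCompact_Icc (a := (0 : V)) (b := 1)).exists_bound_of_continuousOn
      (cont_uzb hu).continuousOn
    have hM1' : 0 ≤ M1 := (norm_nonneg _).trans (hM1 0 ⟨le_rfl, zero_le_one⟩)
    have hM2' : 0 ≤ M2 := (norm_nonneg _).trans (hM2 0 ⟨le_rfl, zero_le_one⟩)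
    refine ⟨M1 + M2, fun y => ?_, fun y => ?_⟩
    · by_cases hy : y ∈ Icc (0 : V) 1
      · linarith [hM1 y hy]
      · rw [h1 y hy, norm_zero]; linarith
    · by_cases hy : y ∈ Icc (0 : V) 1
      · linarith [hM2 y hy]
      · rw [h2 y hy, norm_zero]; linarith
  obtain ⟨M, hMz, hMb⟩ := hb
  obtain ⟨C, hC⟩ := (isCompact_closedBall (0 : ℂ × ℂ) M).exists_bound_of_continuousOn
    hw.continuousOn
  have hlim : Tendsto (fun n => ∫ x in Icc (0 : V) 1, w (T n (uz u) x, T n (uzb u) x)) atTop
      (𝓝 (∫ x in Icc (0 : V) 1, w (uz u x, uzb u x))) := by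
    refine tendsto_integral_of_dominated_convergence (fun _ => C) ?_ ?_ ?_ ?_
    · intro n
      obtain ⟨N, c, hr⟩ := T_gd n hu hc h1 h2
      simp only [hr]
      exact (hw.comp (continuous_gd _ _)).aestronglyMeasurable
    · exact continuous_const.integrableOn_Icc
    · intro n
      refine Eventually.of_forall fun x => ?_
      refine hC _ ?_
      rw [Metric.mem_closedBall, dist_zero_right, Prod.norm_def]
      exact max_le (T_bound n (cont_uz hu) hMz x) (T_bound n (cont_uzb hu) hMb x)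
    · filter_upwards [ae_interior] with x hx
      exact (hw.tendsto _).comp ((T_tendsto (cont_uz hu) hx).prodMk_nhds
        (T_tendsto (cont_uzb hu) hx))
  refine ge_of_tendsto' hlim fun n => ?_
  obtain ⟨N, c, hr⟩ := T_gd n hu hc h1 h2
  simp only [hr]
  exact hq N c

/-! ### transfer to the plane -/

/-- the identification of `V` with `ℂ` -/
noncomputable def J : V →L[ℝ] ℂ :=
  Complex.ofRealCLM.comp (ContinuousLinearMap.proj (R := ℝ) (φ := fun _ : Fin 2 => ℝ) 0)
    + Complex.I • Complex.ofRealCLM.comp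
      (ContinuousLinearMap.proj (R := ℝ) (φ := fun _ : Fin 2 => ℝ) 1)

theorem J_apply (y : V) : J y = (y 0 : ℂ) + (y 1 : ℂ) * Complex.I := by
  simp [J, mul_comm]

theorem J_eq (y : V) : J y = Complex.measurableEquivPi.symm y := by
  rw [Complex.measurableEquivPi_symm_apply, J_apply]

theorem integral_J (g : ℂ → ℝ) : ∫ y : V, g (J y) = ∫ z : ℂ, g z := by
  have h := (Complex.volume_preserving_equiv_pi.symm).integral_comp'
    (g := g) (f := Complex.measurableEquivPi.symm)
  rw [← h]
  refine integral_congr_ae (Eventually.of_forall fun y => ?_)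
  simp only [J_eq]

theorem abs_le_norm_J (y : V) (i : Fin 2) : |y i| ≤ ‖J y‖ := by
  rw [J_apply]
  fin_cases i
  · have := Complex.abs_re_le_norm ((y 0 : ℂ) + (y 1 : ℂ) * Complex.I)
    simpa using this
  · have := Complex.abs_im_le_norm ((y 0 : ℂ) + (y 1 : ℂ) * Complex.I)
    simpa using this

theorem main : S_PLANE := by
  intro w hw hw0 hq f hf hcf
  obtain ⟨R, hR0, hR⟩ : ∃ R : ℝ, 0 < R ∧ ∀ z, R ≤ ‖z‖ → f z = 0 := by
    obtain ⟨R, hR⟩ := hcf.isCompact.isBounded.subset_ball (0 : ℂ)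
    refine ⟨max R 1, by positivity, fun z hz => ?_⟩
    by_contra hne
    have h1 := hR (subset_tsupport f hne)
    rw [Metric.mem_ball, dist_zero_right] at h1
    exact absurd (hz.trans_lt h1) (not_lt.2 (le_max_left _ _))
  set L : ℝ := 4 * R with hL
  have hL0 : 0 < L := by positivity
  set c : V := fun _ => 1 / 2 with hc
  set u : V → ℂ := fun y => L⁻¹ • f (L • J (y - c)) with hu
  have huC : ContDiff ℝ 1 u := by
    rw [hu]
    refine ContDiff.const_smul _ (hf.comp ?_)
    exact (J.contDiff.comp (contDiff_id.sub contDiff_const)).const_smul L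
  have hu0 : ∀ y, (∃ i, y i ≤ 1 / 4 ∨ 3 / 4 ≤ y i) → u y = 0 := by
    rintro y ⟨i, hi⟩
    rw [hu]
    simp only
    rw [hR, smul_zero]
    rw [norm_smul, Real.norm_eq_abs, abs_of_pos hL0]
    have h1 := abs_le_norm_J (y - c) i
    have h2 : 1 / 4 ≤ |(y - c) i| := by
      rw [Pi.sub_apply, hc]
      simp only
      rcases hi with hi | hi
      · rw [le_abs]; right; linarith
      · rw [le_abs]; left; linarith
    have h3 : L * (1 / 4) ≤ L * ‖J (y - c)‖ :=
      mul_le_mul_of_nonneg_left (h2.trans h1) hL0.le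
    rw [hL] at h3 ⊢
    linarith
  have huc : HasCompactSupport u := by
    refine HasCompactSupport.intro (isCompact_Icc (a := (0 : V)) (b := 1)) fun y hy => ?_
    refine hu0 y ?_
    by_contra hcon
    push Not at hcon
    exact hy ⟨fun i => by have := (hcon i).1; simp only [Pi.zero_apply]; linarith,
      fun i => by have := (hcon i).2; simp only [Pi.one_apply]; linarith⟩
  have hloc : ∀ y, y ∉ Icc (0 : V) 1 → fderiv ℝ u y = 0 := by
    intro y hy
    have hloc : u =ᶠ[𝓝 y] fun _ => 0 := by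
      have hopen : IsOpen (Icc (0 : V) 1)ᶜ := isClosed_Icc.isOpen_compl
      filter_upwards [hopen.mem_nhds hy] with z hz
      refine hu0 z ?_
      by_contra hcon
      push Not at hcon
      exact hz ⟨fun i => by have := (hcon i).1; simp only [Pi.zero_apply]; linarith,
        fun i => by have := (hcon i).2; simp only [Pi.one_apply]; linarith⟩
    rw [hloc.fderiv_eq]
    simp
  have h1 : ∀ x, x ∉ Icc (0 : V) 1 → uz u x = 0 := by
    intro x hx
    unfold uz
    rw [hloc x hx]
    simp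
  have h2 : ∀ x, x ∉ Icc (0 : V) 1 → uzb u x = 0 := by
    intro x hx
    unfold uzb
    rw [hloc x hx]
    simp
  have hmain := cube hw hq huC huc h1 h2
  have hfd : ∀ y v, fderiv ℝ u y v = fderiv ℝ f (L • J (y - c)) (J v) := by
    intro y v
    have hA : HasFDerivAt (fun y : V => L • J (y - c)) (L • J) y := by
      have h3 : HasFDerivAt (fun y : V => J (y - c)) (J.comp (ContinuousLinearMap.id ℝ V)) y :=
        J.hasFDerivAt.comp y ((hasFDerivAt_id y).sub_const c)
      rw [ContinuousLinearMap.comp_id] at h3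
      exact h3.const_smul L
    have h3 : HasFDerivAt u (L⁻¹ • ((fderiv ℝ f (L • J (y - c))).comp (L • J))) y :=
      (((hf.differentiable (by norm_num) _).hasFDerivAt).comp y hA).const_smul L⁻¹
    rw [h3.fderiv]
    simp [hL0.ne']
  have hJ0 : J (Pi.single 0 1) = 1 := by rw [J_apply]; simp
  have hJ1 : J (Pi.single 1 1) = Complex.I := by rw [J_apply]; simp
  have hz : ∀ y, uz u y = dz f (L • J (y - c)) := by
    intro y
    unfold uz dz
    rw [hfd, hfd, hJ0, hJ1]
  have hzb : ∀ y, uzb u y = dzb f (L • J (y - c)) := by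
    intro y
    unfold uzb dzb
    rw [hfd, hfd, hJ0, hJ1]
  have h3 : ∫ x in Icc (0 : V) 1, w (uz u x, uzb u x) = ∫ x : V, w (uz u x, uzb u x) := by
    refine setIntegral_eq_integral_of_forall_compl_eq_zero fun y hy => ?_
    rw [h1 y hy, h2 y hy]
    exact hw0
  rw [h3] at hmain
  simp only [hz, hzb] at hmain
  rw [integral_sub_right_eq_self (fun y : V => w (dz f (L • J y), dzb f (L • J y))) c,
    integral_J (fun z => w (dz f (L • z), dzb f (L • z))),
    Measure.integral_comp_smul volume (fun z => w (dz f z, dzb f z)) L, smul_eq_mul] at hmain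
  have hpos : 0 < |(L ^ Module.finrank ℝ ℂ)⁻¹| := by positivity
  by_contra hneg
  push Not at hneg
  have := mul_neg_of_pos_of_neg hpos hneg
  linarith

end Pool.Agent.W74.IW.Plane
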